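import Pool.Agent.helper84.ZD.SpecA

set_option autoImplicit false

open Complex MeasureTheory

namespace Pool.Agent.ZD

open Pool.Agent.helper84.DM Pool.Agent.helper78.ED Pool.Agent.DH

theorem K2B_e5 : (128 : ℝ) < Real.exp 5 := by
  have h1 : (2.7 : ℝ) < Real.exp 1 := by
    have := Real.exp_one_gt_d9
    linarith
  have h2 : Real.exp 5 = Real.exp 1 ^ 5 := by
    rw [← Real.exp_nat_mul]
    norm_num
  rw [h2]
  have h3 : (2.7 : ℝ) ^ 5 < Real.exp 1 ^ 5 := pow_lt_pow_left₀ h1 (by norm_num) (by norm_num)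
  have h4 : (128 : ℝ) < (2.7 : ℝ) ^ 5 := by norm_num
  linarith

theorem K2B_phi (h2 : PHS_stmt) (x : ℝ) (h : phi x ≠ 0) : 1 / 2 < Real.exp x ∧ Real.exp x < 64 := by
  obtain ⟨-, -, -, -, h5, h6⟩ := h2
  constructor
  · by_contra hcon
    apply h
    unfold phi
    rw [h5 _ (not_lt.1 hcon), zero_mul]
  · by_contra hcon
    apply h
    unfold phi
    rw [h6 _ (not_lt.1 hcon), zero_mul]

theorem K2B_phi_pair (h2 : PHS_stmt) (y a : ℝ) (ha : 5 < |a|) : phi (y + a) * phi y = 0 := by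
  by_contra hcon
  have h3 : phi (y + a) ≠ 0 := left_ne_zero_of_mul hcon
  have h4 : phi y ≠ 0 := right_ne_zero_of_mul hcon
  obtain ⟨h5, h6⟩ := K2B_phi h2 _ h3
  obtain ⟨h7, h8⟩ := K2B_phi h2 _ h4
  rw [Real.exp_add] at h5 h6
  have h9 := K2B_e5
  have hy : 0 < Real.exp y := Real.exp_pos y
  rcases lt_abs.1 ha with h | h
  · have h10 : Real.exp 5 < Real.exp a := Real.exp_lt_exp.2 h
    nlinarith
  · have h10 : Real.exp 5 < Real.exp (-a) := Real.exp_lt_exp.2 h
    have h11 : Real.exp a * Real.exp (-a) = 1 := by rw [← Real.exp_add]; simp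
    have h12 : 0 < Real.exp a := Real.exp_pos a
    have h13 : Real.exp a * 128 < 1 := by nlinarith
    nlinarith

theorem K2B_phi_cpt (h2 : PHS_stmt) (y : ℝ) (hy : y ∉ Set.Icc (-5 : ℝ) 5) : phi y = 0 := by
  by_contra hcon
  obtain ⟨h7, h8⟩ := K2B_phi h2 _ hcon
  have h9 := K2B_e5
  apply hy
  constructor
  · by_contra h
    have h10 : Real.exp y < Real.exp (-5) := Real.exp_lt_exp.2 (not_le.1 h)
    have h11 : Real.exp 5 * Real.exp (-5) = 1 := by rw [← Real.exp_add]; simp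
    have h12 : 0 < Real.exp (-5 : ℝ) := Real.exp_pos _
    nlinarith
  · by_contra h
    have h10 : Real.exp 5 < Real.exp y := Real.exp_lt_exp.2 (not_le.1 h)
    linarith

theorem K2B_ee_add (x y : ℝ) : ee x * ee y = ee (x + y) := by
  unfold ee
  rw [← Complex.exp_add]
  congr 1
  push_cast
  ring

theorem K2B_ee_conj (x : ℝ) : (starRingEnd ℂ) (ee x) = ee (-x) := by
  unfold ee
  rw [← Complex.exp_conj]
  congr 1
  rw [map_mul, Complex.conj_ofReal, Complex.conj_I]
  push_cast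
  ring

theorem K2B_ee_cont : Continuous ee := by
  unfold ee
  fun_prop

/-- one term -/
theorem K2B_term (h1 : CHX_stmt) (h2 : PHS_stmt) (h3 : RD_stmt) (h4 : SBO_stmt) :
    ∃ C : ℝ, 0 ≤ C ∧ ∀ a ξ : ℝ, |a| ≤ 5 →
      ‖∫ y : ℝ, ((phi (y + a) * phi y : ℝ) : ℂ) * ee (-(ξ * Real.exp y))‖ ≤ C * kap ξ := by
  have hSB : SB (fun y => ((Phi y : ℝ) : ℂ)) := h2.2.1
  obtain ⟨hd, hx, -, -, B0, hB0, hB0'⟩ := h4 _ hSB
  obtain ⟨hdd, -, -, -, B1, hB1, hB1'⟩ := h4 _ hd
  obtain ⟨-, -, -, -, B2, hB2, hB2'⟩ := h4 _ hdd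
  obtain ⟨C, hC, hC'⟩ := h3 (fun y => ((Phi y : ℝ) : ℂ)) (fun _ => 1)
    (fun x => (x : ℂ) * ((Phi x : ℝ) : ℂ)) (contDiff_infty.1 hSB.1 2) contDiff_const hx
    ⟨max B0 (max B1 B2), fun x => ⟨(hB0' x).trans (le_max_left _ _),
      (hB1' x).trans ((le_max_left _ _).trans (le_max_right _ _)),
      (hB2' x).trans ((le_max_right _ _).trans (le_max_right _ _))⟩⟩
    ⟨1, fun x => by simp⟩
  refine ⟨Real.exp 5 * C, mul_nonneg (Real.exp_pos 5).le hC, ?_⟩
  intro a ξ ha
  have hkap : 0 ≤ kap ξ := by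
    unfold kap
    positivity
  have hα : |Real.exp a| ≤ Real.exp 5 := by
    rw [abs_of_pos (Real.exp_pos a)]
    exact Real.exp_le_exp.2 (le_of_abs_le ha)
  have h5 := hC' (Real.exp a) 0 ξ hα (by rw [abs_zero]; exact (Real.exp_pos 5).le)
  have h6 : ∫ y : ℝ, ((phi (y + a) * phi y : ℝ) : ℂ) * ee (-(ξ * Real.exp y)) =
      ((Real.exp a : ℝ) : ℂ) * ∫ s : ℝ, (fun y => ((Phi y : ℝ) : ℂ)) (Real.exp a * s) *
        (fun _ => (1 : ℂ)) (0 * s) * (fun x : ℝ => (x : ℂ) * ((Phi x : ℝ) : ℂ)) s * ee (-(ξ * s)) := by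
    have h7 := h1.1 (fun s => ((Phi (Real.exp a * s) : ℝ) : ℂ) * ((Real.exp a : ℝ) : ℂ) * (s : ℂ) *
      ee (-(ξ * s)))
    rw [← integral_const_mul]
    have h8 : ∀ y : ℝ, ((phi (y + a) * phi y : ℝ) : ℂ) * ee (-(ξ * Real.exp y)) =
        ((phi y : ℝ) : ℂ) * ((((Phi (Real.exp a * Real.exp y) : ℝ) : ℂ) * ((Real.exp a : ℝ) : ℂ) *
          ((Real.exp y : ℝ) : ℂ)) * ee (-(ξ * Real.exp y))) := by
      intro y
      have h9 : phi (y + a) = Phi (Real.exp a * Real.exp y) * (Real.exp a * Real.exp y) := by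
        unfold phi
        rw [Real.exp_add, mul_comm (Real.exp y)]
      rw [h9]
      push_cast
      ring
    simp only [h8]
    rw [← h7]
    congr 1
    funext s
    ring
  rw [h6, norm_mul]
  have h10 : ‖((Real.exp a : ℝ) : ℂ)‖ = |Real.exp a| := by
    rw [Complex.norm_real, Real.norm_eq_abs]
  rw [h10, mul_assoc]
  exact mul_le_mul hα h5 (norm_nonneg _) (Real.exp_pos 5).le

theorem K2B (h1 : CHX_stmt) (h2 : PHS_stmt) (h3 : RD_stmt) (h4 : SBO_stmt) (h5 : GEC_stmt) :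
    K2B_stmt := by
  obtain ⟨C, hC, hC'⟩ := K2B_term h1 h2 h3 h4
  refine ⟨C + 1, by linarith, ?_⟩
  intro X M a
  have hkap : ∀ x : ℝ, 0 ≤ kap x := by
    intro x
    unfold kap
    positivity
  have hbig : 5 < |a| → ∫ y : ℝ, GE X M (y + a) * (starRingEnd ℂ) (GE X M y) = 0 := by
    intro ha
    have h6 : ∀ y : ℝ, GE X M (y + a) * (starRingEnd ℂ) (GE X M y) = 0 := by
      intro y
      have h7 := K2B_phi_pair h2 y a ha
      unfold GE
      rcases mul_eq_zero.1 h7 with h8 | h8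
      · rw [h8]
        simp
      · rw [h8]
        simp
    simp only [h6, integral_zero]
  refine ⟨hbig, ?_⟩
  have hS : 0 ≤ ∑ m ∈ MM M, ∑ m' ∈ MM M, kap (X * ((m : ℝ) * Real.exp a - m')) :=
    Finset.sum_nonneg (fun m _ => Finset.sum_nonneg (fun m' _ => hkap _))
  by_cases ha : 5 < |a|
  · rw [hbig ha, norm_zero]
    exact mul_nonneg (mul_nonneg (by linarith) (sq_nonneg X)) hS
  · rw [not_lt] at ha
    have hphc : Continuous phi := by
      unfold phi
      exact (h2.1.continuous.comp Real.continuous_exp).mul Real.continuous_exp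
    have hint : ∀ ξ : ℝ, Integrable
        (fun y : ℝ => ((phi (y + a) * phi y : ℝ) : ℂ) * ee (-(ξ * Real.exp y))) := by
      intro ξ
      apply Continuous.integrable_of_hasCompactSupport
      · have h7 : Continuous (fun y : ℝ => phi (y + a) * phi y) :=
          (hphc.comp (continuous_id.add continuous_const)).mul hphc
        have h8 : Continuous (fun y : ℝ => ee (-(ξ * Real.exp y))) :=
          K2B_ee_cont.comp (continuous_const.mul Real.continuous_exp).neg
        exact (Complex.continuous_ofReal.comp h7).mul h8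
      · apply HasCompactSupport.intro (isCompact_Icc : IsCompact (Set.Icc (-5 : ℝ) 5))
        intro y hy
        rw [K2B_phi_cpt h2 y hy]
        simp
    have hexp : ∀ y : ℝ, GE X M (y + a) * (starRingEnd ℂ) (GE X M y) =
        ∑ m ∈ MM M, ∑ m' ∈ MM M, ((X : ℂ) ^ 2 * (((phi (y + a) * phi y : ℝ) : ℂ) *
          ee (-((X * ((m : ℝ) * Real.exp a - m')) * Real.exp y)))) := by
      intro y
      unfold GE EE
      rw [map_mul, map_mul, Complex.conj_ofReal, Complex.conj_ofReal, map_sum]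
      have h9 : ∀ S T : ℂ, ((phi (y + a) : ℝ) : ℂ) * ((X : ℂ) * S) * (((phi y : ℝ) : ℂ) * ((X : ℂ) * T)) =
          ((X : ℂ) ^ 2 * ((phi (y + a) * phi y : ℝ) : ℂ)) * (S * T) := by
        intro S T
        push_cast
        ring
      rw [h9, Finset.sum_mul_sum, Finset.mul_sum]
      apply Finset.sum_congr rfl
      intro m _
      rw [Finset.mul_sum]
      apply Finset.sum_congr rfl
      intro m' _
      rw [K2B_ee_conj, K2B_ee_add, mul_assoc]
      congr 3
      rw [Real.exp_add]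
      ring
    simp only [hexp]
    rw [integral_finsetSum _ (fun m _ => integrable_finsetSum _ (fun m' _ => (hint _).const_mul _))]
    have h10 : ∀ m ∈ MM M, ∫ y : ℝ, ∑ m' ∈ MM M, ((X : ℂ) ^ 2 * (((phi (y + a) * phi y : ℝ) : ℂ) *
          ee (-((X * ((m : ℝ) * Real.exp a - m')) * Real.exp y)))) =
        ∑ m' ∈ MM M, (X : ℂ) ^ 2 * ∫ y : ℝ, (((phi (y + a) * phi y : ℝ) : ℂ) *
          ee (-((X * ((m : ℝ) * Real.exp a - m')) * Real.exp y))) := by
      intro m _
      rw [integral_finsetSum _ (fun m' _ => (hint _).const_mul _)]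
      apply Finset.sum_congr rfl
      intro m' _
      rw [integral_const_mul]
    rw [Finset.sum_congr rfl h10, Finset.mul_sum]
    refine (norm_sum_le _ _).trans (Finset.sum_le_sum ?_)
    intro m _
    rw [Finset.mul_sum]
    refine (norm_sum_le _ _).trans (Finset.sum_le_sum ?_)
    intro m' _
    rw [norm_mul, norm_pow, Complex.norm_real, Real.norm_eq_abs, sq_abs]
    have h11 := hC' a (X * ((m : ℝ) * Real.exp a - m')) ha
    have h12 := hkap (X * ((m : ℝ) * Real.exp a - m'))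
    have h13 : (C + 1) * X ^ 2 * kap (X * ((m : ℝ) * Real.exp a - m')) =
        X ^ 2 * (C * kap (X * ((m : ℝ) * Real.exp a - m'))) +
          X ^ 2 * kap (X * ((m : ℝ) * Real.exp a - m')) := by ring
    rw [h13]
    have h14 := mul_le_mul_of_nonneg_left h11 (sq_nonneg X)
    have h15 := mul_nonneg (sq_nonneg X) h12
    linarith

end Pool.Agent.ZD
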