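import Pool.Agent.helper90.ZD.SpecB

set_option autoImplicit false

open Complex MeasureTheory

namespace Pool.Agent.ZD

open Pool.Agent.helper84.DM Pool.Agent.helper78.ED Pool.Agent.DH

theorem BLE_sq (W : Finset ℝ) (w : ℝ → ℝ) (x : ℝ) :
    ((‖∑ t ∈ W, ((w t : ℝ) : ℂ) * Complex.exp (((t * x : ℝ) : ℂ) * I)‖ ^ 2 : ℝ) : ℂ) =
      ∑ t ∈ W, ∑ t' ∈ W, ((w t * w t' : ℝ) : ℂ) *
        Complex.exp ((((t - t') * x : ℝ) : ℂ) * I) := by
  rw [Complex.ofReal_pow, ← Complex.mul_conj', map_sum, Finset.sum_mul_sum]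
  refine Finset.sum_congr rfl fun t _ => Finset.sum_congr rfl fun t' _ => ?_
  rw [map_mul, Complex.conj_ofReal, ← Complex.exp_conj, map_mul, Complex.conj_ofReal, Complex.conj_I]
  have h1 : Complex.exp ((((t - t') * x : ℝ) : ℂ) * I) =
      Complex.exp (((t * x : ℝ) : ℂ) * I) * Complex.exp (((t' * x : ℝ) : ℂ) * -I) := by
    rw [← Complex.exp_add]
    congr 1
    push_cast
    ring
  rw [h1]
  push_cast
  ring

theorem BLE_rho (W : Finset ℝ) (x : ℝ) :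
    rho W x = ∑ t ∈ W, (((fun _ : ℝ => (1 : ℝ)) t : ℝ) : ℂ) * Complex.exp (((t * x : ℝ) : ℂ) * I) := by
  unfold rho
  refine Finset.sum_congr rfl fun t _ => ?_
  simp

theorem BLE_pt (J : Type) (js : Finset J) (y : J → ℝ) (T v : ℝ) (W : Finset ℝ) (hT : 1 ≤ T)
    (hW : ∀ t ∈ W, T ≤ t ∧ t ≤ 2 * T) :
    ∑ j ∈ js, (‖rho W (y j + v)‖ ^ 2 + ‖rho1 T W (y j + v)‖ ^ 2) ≤
      5 * ∑ t ∈ W, ∑ t' ∈ W, ‖∑ j ∈ js, Complex.exp (((y j * (t - t') : ℝ) : ℂ) * I)‖ := by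
  have hT0 : 0 < T := by linarith
  have h1 : ((∑ j ∈ js, (‖rho W (y j + v)‖ ^ 2 + ‖rho1 T W (y j + v)‖ ^ 2) : ℝ) : ℂ) =
      ∑ t ∈ W, ∑ t' ∈ W, ((1 + t / T * (t' / T) : ℝ) : ℂ) *
        Complex.exp ((((t - t') * v : ℝ) : ℂ) * I) *
          ∑ j ∈ js, Complex.exp (((y j * (t - t') : ℝ) : ℂ) * I) := by
    rw [Complex.ofReal_sum]
    have h2 : ∀ j ∈ js, (((‖rho W (y j + v)‖ ^ 2 + ‖rho1 T W (y j + v)‖ ^ 2 : ℝ)) : ℂ) =
        ∑ t ∈ W, ∑ t' ∈ W, ((1 + t / T * (t' / T) : ℝ) : ℂ) *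
          Complex.exp ((((t - t') * v : ℝ) : ℂ) * I) *
            Complex.exp (((y j * (t - t') : ℝ) : ℂ) * I) := by
      intro j _
      rw [Complex.ofReal_add, BLE_rho, BLE_sq]
      unfold rho1
      rw [BLE_sq W (fun t => t / T), ← Finset.sum_add_distrib]
      refine Finset.sum_congr rfl fun t _ => ?_
      rw [← Finset.sum_add_distrib]
      refine Finset.sum_congr rfl fun t' _ => ?_
      rw [mul_assoc, ← Complex.exp_add]
      have h3 : (((t - t') * v : ℝ) : ℂ) * I + ((y j * (t - t') : ℝ) : ℂ) * I =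
          (((t - t') * (y j + v) : ℝ) : ℂ) * I := by
        push_cast
        ring
      rw [h3]
      push_cast
      ring
    rw [Finset.sum_congr rfl h2, Finset.sum_comm]
    refine Finset.sum_congr rfl fun t _ => ?_
    rw [Finset.sum_comm]
    refine Finset.sum_congr rfl fun t' _ => ?_
    rw [Finset.mul_sum]
  have h2 : 0 ≤ ∑ j ∈ js, (‖rho W (y j + v)‖ ^ 2 + ‖rho1 T W (y j + v)‖ ^ 2) :=
    Finset.sum_nonneg fun j _ => by positivity
  have h3 : ∑ j ∈ js, (‖rho W (y j + v)‖ ^ 2 + ‖rho1 T W (y j + v)‖ ^ 2) =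
      ‖((∑ j ∈ js, (‖rho W (y j + v)‖ ^ 2 + ‖rho1 T W (y j + v)‖ ^ 2) : ℝ) : ℂ)‖ := by
    rw [Complex.norm_real, Real.norm_eq_abs, abs_of_nonneg h2]
  rw [h3, h1, Finset.mul_sum]
  refine (norm_sum_le _ _).trans (Finset.sum_le_sum fun t ht => ?_)
  rw [Finset.mul_sum]
  refine (norm_sum_le _ _).trans (Finset.sum_le_sum fun t' ht' => ?_)
  rw [norm_mul, norm_mul, Complex.norm_exp_ofReal_mul_I, mul_one, Complex.norm_real, Real.norm_eq_abs]
  obtain ⟨ha, hb⟩ := hW t ht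
  obtain ⟨ha', hb'⟩ := hW t' ht'
  have h4 : 0 ≤ t / T := div_nonneg (by linarith) hT0.le
  have h5 : t / T ≤ 2 := by rw [div_le_iff₀ hT0]; exact hb
  have h4' : 0 ≤ t' / T := div_nonneg (by linarith) hT0.le
  have h5' : t' / T ≤ 2 := by rw [div_le_iff₀ hT0]; exact hb'
  have h6 : 0 ≤ t / T * (t' / T) := mul_nonneg h4 h4'
  have h7 : t / T * (t' / T) ≤ 4 := by nlinarith
  rw [abs_of_nonneg (by linarith)]
  exact mul_le_mul_of_nonneg_right (by linarith) (norm_nonneg _)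

theorem BLE_cont (T : ℝ) (W : Finset ℝ) (y : ℝ) :
    Continuous (fun v : ℝ => ‖rho W (y + v)‖ ^ 2 + ‖rho1 T W (y + v)‖ ^ 2) := by
  unfold rho rho1
  fun_prop

theorem BLE : BLE_stmt := by
  intro J js y T η W hT hη hW
  unfold MI
  rw [← Finset.mul_sum, ← intervalIntegral.integral_finset_sum
    (fun j _ => (BLE_cont T W (y j)).intervalIntegrable _ _)]
  set S := ∑ t ∈ W, ∑ t' ∈ W, ‖∑ j ∈ js, Complex.exp (((y j * (t - t') : ℝ) : ℂ) * I)‖ with hS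
  have h1 : ∫ v in (-(2 * η))..(2 * η),
      ∑ j ∈ js, (‖rho W (y j + v)‖ ^ 2 + ‖rho1 T W (y j + v)‖ ^ 2) ≤
      ∫ _ in (-(2 * η))..(2 * η), 5 * S := by
    apply intervalIntegral.integral_mono_on (by linarith)
    · apply Continuous.intervalIntegrable
      exact continuous_finset_sum _ fun j _ => BLE_cont T W (y j)
    · exact intervalIntegrable_const
    · intro v _
      exact BLE_pt J js y T v W hT hW
  rw [intervalIntegral.integral_const, smul_eq_mul] at h1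
  calc T * _ ≤ T * ((2 * η - -(2 * η)) * (5 * S)) :=
        mul_le_mul_of_nonneg_left h1 (by linarith)
    _ = 20 * T * η * S := by ring

end Pool.Agent.ZD
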